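import Pool.Agent.H38.Flame.Jump

/-!
# MP_133cc4_co: extending flames in arbitrary rooted digraphs

Every flame `F` of an arbitrary rooted digraph `D` (any cardinality, parallel
edges, cycles and backward-infinite paths allowed) extends to a flame `L` of `D`
which is large at every vertex `v` whose local edge-connectivity `λ_D(r,v)` is
finite, and which still contains infinitely many edge-disjoint `rv`-paths for
every other vertex `v`.  In particular, if all local edge-connectivities are
finite, then every flame extends to a large flame.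
-/

open Set

namespace Pool.Agent.Results.MP_133cc4_co.LargeAtFiniteVertices

open Pool.Agent.H38.Flame Pool.Agent.H38.Flame.RootedDigraph

universe u w

/-- `λ_D(r,v)` is finite: the families of pairwise edge-disjoint `rv`-paths of
`D` have bounded size. -/
def FiniteConnectivity {V : Type u} {E : Type w} (D : RootedDigraph V E) (v : V) : Prop :=
  ∃ n : ℕ, ∀ Q, D.IsPathFamily univ v Q → Q.encard ≤ n

section

variable {V : Type u} {E : Type w} {D : RootedDigraph V E}

theorem exists_entering {L : Set E} {v : V} {Q : Set (Set E)} (hQ : D.IsPathFamily L v Q)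
    {X : Set V} (hv : v ∈ X) (hr : D.root ∉ X) : ∃ f : Q → E,
      (∀ P : Q, f P ∈ P.1 ∧ f P ∈ D.din L X) ∧ Function.Injective f := by
  classical
  have h1 : ∀ P : Q, ∃ e : E, e ∈ P.1 ∧ e ∈ D.din L X := by
    rintro ⟨P, hP⟩
    obtain ⟨⟨l, hl1, hl2, rfl⟩, hPL⟩ := hQ.1 P hP
    obtain ⟨e, he1, he2⟩ := hl1.enter hr hv
    exact ⟨e, he1, hPL he1, he2⟩
  choose f hf using h1
  refine ⟨f, hf, ?_⟩
  intro P P' heq
  by_contra hne
  have hne' : P.1 ≠ P'.1 := fun h => hne (Subtype.ext h)
  refine Set.disjoint_left.1 (hQ.2 P.2 P'.2 hne') (hf P).1 ?_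
  rw [heq]
  exact (hf P').1

theorem encard_le_of_family {L : Set E} {v : V} {Q : Set (Set E)} (hQ : D.IsPathFamily L v Q)
    {X : Set V} (hv : v ∈ X) (hr : D.root ∉ X) : Q.encard ≤ (D.din L X).encard := by
  obtain ⟨f, hf1, hf2⟩ := exists_entering hQ hv hr
  rw [← ENat.card_coe_set_eq]
  refine hf2.encard_range.trans (encard_le_encard ?_)
  rintro _ ⟨P, rfl⟩
  exact (hf1 P).2

/-- a vertex of infinite local connectivity is one all of whose cuts are infinite -/
theorem infV_of_not_finiteConnectivity {v : V} (hv : v ≠ D.root)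
    (h : ¬ FiniteConnectivity D v) : D.InfV v := by
  refine ⟨hv, ?_⟩
  intro X hX1 hX2
  by_contra hfin
  rw [Set.not_infinite] at hfin
  refine h ⟨(D.din univ X).ncard, ?_⟩
  intro Q hQ
  rw [hfin.cast_ncard_eq]
  exact encard_le_of_family hQ hX1 hX2

theorem not_infV_of_finiteConnectivity {v : V} (h : FiniteConnectivity D v) :
    ¬ D.InfV v := by
  classical
  rintro ⟨hv, hinf⟩
  obtain ⟨n, hn⟩ := h
  obtain ⟨p, hp1, hp2⟩ := menger (D := D) univ hv (n + 1) (by
    intro X h1 h2
    rw [(hinf X h1 h2).encard_eq]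
    exact le_top)
  have h1 : ∀ i, ∃ m, D.IsWalk D.root m v ∧ (D.root :: m.map D.tgt).Nodup ∧
      ∀ e ∈ m, e ∈ p i := fun i => (hp1 i).1.shorten
  choose m hm1 hm2 hm3 using h1
  have hdis : ∀ i j, i ≠ j → ∀ e ∈ m i, e ∉ m j := by
    intro i j hij e he he'
    exact hp2 i j hij e (hm3 i e he) (hm3 j e he')
  have hne : ∀ i, ∃ e, e ∈ m i := by
    intro i
    obtain ⟨e, he, -⟩ := (hm1 i).enter (X := {v}) (fun h => hv h.symm) rfl
    exact ⟨e, he⟩
  set g : Fin (n + 1) → Set E := fun i => {e | e ∈ m i} with hg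
  have hginj : Function.Injective g := by
    intro i j hij
    by_contra hne'
    obtain ⟨e, he⟩ := hne i
    have h2 : e ∈ g i := he
    rw [hij] at h2
    exact hdis i j hne' e he h2
  have hfam : D.IsPathFamily univ v (Set.range g) := by
    refine ⟨?_, ?_⟩
    · rintro _ ⟨i, rfl⟩
      exact ⟨⟨m i, hm1 i, hm2 i, rfl⟩, subset_univ _⟩
    · rintro _ ⟨i, rfl⟩ _ ⟨j, rfl⟩ hij
      have hij' : i ≠ j := fun h => hij (by rw [h])
      exact Set.disjoint_left.2 (fun e he he' => hdis i j hij' e he he')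
  have h3 := hginj.encard_range.trans (hn _ hfam)
  have h4 : ((n + 1 : ℕ) : ℕ∞) ≤ n := by
    refine le_trans ?_ h3
    simp
  have h5 : n + 1 ≤ n := by exact_mod_cast h4
  omega

/-- largeness from a tight set whose entering edges all lie in `L` -/
theorem isLargeAt_of_tight {L : Set E} {v : V} {c : E → List E} (hc : D.Link L v c)
    {X : Set V} (hX : v ∈ X) (hr : D.root ∉ X)
    (hall : D.din univ X ⊆ L) (hfin : (D.inn L v).Finite)
    (htight : (D.din L X).encard ≤ (D.inn L v).encard) : D.IsLargeAt L v := by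
  classical
  obtain ⟨Q, hQ, hcov, -⟩ := hc.exists_family
  have hC : D.din univ X = D.din L X :=
    Subset.antisymm (fun e he => ⟨hall he, he.2⟩) (din_mono (subset_univ _) X)
  obtain ⟨f, hf1, hf2⟩ := exists_entering hQ hX hr
  -- the last edges give an injection into Q
  have hlast : (D.inn L v).encard ≤ Q.encard := by
    have h1 : ∀ a : D.inn L v, ∃ P : Q, a.1 ∈ P.1 := by
      rintro ⟨a, ha⟩
      obtain ⟨P, hP, haP⟩ := hcov a ha.1 ha.2
      exact ⟨⟨P, hP⟩, haP⟩
    choose g hg using h1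
    have hginj : Function.Injective g := by
      intro a b hab
      obtain ⟨⟨l, hl1, hl2, hl3⟩, -⟩ := hQ.1 (g a).1 (g a).2
      have h2 : a.1 ∈ l := by
        have := hg a
        rw [hl3] at this
        exact this
      have h3 : b.1 ∈ l := by
        have := hg b
        rw [← hab, hl3] at this
        exact this
      exact Subtype.ext (tgt_inj_of_nodup hl2 h2 h3 (by rw [a.2.2, b.2.2]))
    rw [← ENat.card_coe_set_eq, ← ENat.card_coe_set_eq]
    exact ENat.card_le_card_of_injective hginj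
  have hrange : Set.range f = D.din L X := by
    have hdfin : (D.din L X).Finite := by
      rw [← encard_lt_top_iff]
      exact lt_of_le_of_lt htight (by rw [encard_lt_top_iff]; exact hfin)
    have hsub : Set.range f ⊆ D.din L X := by rintro _ ⟨P, rfl⟩; exact (hf1 P).2
    refine Set.Finite.eq_of_subset_of_encard_le (hdfin.subset hsub) hsub ?_
    refine (htight.trans hlast).trans ?_
    rw [← ENat.card_coe_set_eq]
    exact hf2.encard_range
  refine ⟨Q, D.din L X, hQ, ?_, ?_, ?_⟩
  · rintro P ⟨l, hl1, hl2, rfl⟩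
    obtain ⟨e, he1, he2⟩ := hl1.enter hr hX
    refine ⟨e, he1, ?_⟩
    rw [← hC]
    exact ⟨mem_univ _, he2⟩
  · intro e he
    rw [← hrange] at he
    obtain ⟨P, rfl⟩ := he
    exact ⟨P.1, P.2, (hf1 P).1⟩
  · intro P hP
    refine ⟨f ⟨P, hP⟩, ⟨(hf1 ⟨P, hP⟩).1, (hf1 ⟨P, hP⟩).2⟩, ?_⟩
    rintro e ⟨he1, he2⟩
    rw [← hrange] at he2
    obtain ⟨P', rfl⟩ := he2
    by_cases hPP : P = P'.1
    · subst hPP; rfl
    · exact absurd (hf1 P').1 (Set.disjoint_left.1 (hQ.2 hP P'.2 hPP) he1)

/-- the order used for Zorn's lemma -/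
def rel (D : RootedDigraph V E) (L L' : Set E) : Prop :=
  L ⊆ L' ∧ ∀ v, D.InfV v →
    D.inn L' v = D.inn L v ∨ ((D.inn L v).Finite ∧ (D.inn L' v).Infinite)

theorem rel_refl (L : Set E) : rel D L L := ⟨subset_rfl, fun _ _ => Or.inl rfl⟩

theorem rel_trans {L L' L'' : Set E} (h : rel D L L') (h' : rel D L' L'') : rel D L L'' := by
  refine ⟨h.1.trans h'.1, ?_⟩
  intro v hv
  rcases h.2 v hv with h1 | ⟨h1, h2⟩
  · rcases h'.2 v hv with h3 | ⟨h3, h4⟩
    · exact Or.inl (h3.trans h1)
    · exact Or.inr ⟨h1 ▸ h3, h4⟩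
  · rcases h'.2 v hv with h3 | ⟨h3, h4⟩
    · exact Or.inr ⟨h1, h3 ▸ h2⟩
    · exact absurd h3 h2

theorem exists_stable {c : Set (Set E)} (hcne : c.Nonempty)
    (hch : ∀ a ∈ c, ∀ b ∈ c, rel D a b ∨ rel D b a) (hfl : ∀ a ∈ c, ∀ v, D.FlameAt a v) (v : V) :
    ∃ a ∈ c, D.inn (⋃₀ c) v = D.inn a v := by
  classical
  have hsub : ∀ a ∈ c, D.inn a v ⊆ D.inn (⋃₀ c) v := fun a ha =>
    inn_mono (subset_sUnion_of_mem ha) v
  -- it suffices that all the sets `inn b v` are contained in `inn a v`
  have hsuff : ∀ a ∈ c, (∀ b ∈ c, D.inn b v ⊆ D.inn a v) → D.inn (⋃₀ c) v = D.inn a v := by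
    intro a ha h
    refine Subset.antisymm ?_ (hsub a ha)
    rintro e ⟨⟨b, hb, heb⟩, he2⟩
    exact h b hb ⟨heb, he2⟩
  by_cases hv : D.InfV v
  · by_cases hex : ∃ a ∈ c, (D.inn a v).Infinite
    · obtain ⟨a, ha, hai⟩ := hex
      refine ⟨a, ha, hsuff a ha ?_⟩
      intro b hb
      rcases hch a ha b hb with h1 | h1
      · rcases h1.2 v hv with h2 | ⟨h2, -⟩
        · exact h2.subset
        · exact absurd h2 hai
      · exact inn_mono h1.1 v
    · push Not at hex
      obtain ⟨a, ha⟩ := hcne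
      refine ⟨a, ha, hsuff a ha ?_⟩
      intro b hb
      rcases hch a ha b hb with h1 | h1
      · rcases h1.2 v hv with h2 | ⟨-, h2⟩
        · exact h2.subset
        · exact absurd (hex b hb) h2
      · exact inn_mono h1.1 v
  · by_cases hvr : v = D.root
    · obtain ⟨a, ha⟩ := hcne
      refine ⟨a, ha, hsuff a ha ?_⟩
      intro b hb e he
      exact absurd hvr (ne_root_of_mem_inn he)
    · -- bounded in-degrees
      have hX : ∃ X : Set V, v ∈ X ∧ D.root ∉ X ∧ (D.din univ X).Finite := by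
        by_contra hcon
        push Not at hcon
        exact hv ⟨hvr, hcon⟩
      obtain ⟨X, hX1, hX2, hX3⟩ := hX
      have hbd : ∀ a ∈ c, (D.inn a v).Finite ∧ (D.inn a v).ncard ≤ (D.din univ X).ncard := by
        intro a ha
        have h1 : (D.inn a v).encard ≤ (D.din univ X).encard :=
          ((hfl a ha v).le_din hX1 hX2).trans (encard_le_encard (din_mono (subset_univ _) X))
        have h2 : (D.inn a v).Finite := by
          rw [← encard_lt_top_iff]
          exact lt_of_le_of_lt h1 (by rw [encard_lt_top_iff]; exact hX3)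
        refine ⟨h2, ?_⟩
        rw [← h2.cast_ncard_eq, ← hX3.cast_ncard_eq] at h1
        exact_mod_cast h1
      have hex : ∃ a ∈ c, ∀ b ∈ c, (D.inn b v).ncard ≤ (D.inn a v).ncard := by
        set P : ℕ → Prop := fun k => ∃ a ∈ c, (D.inn a v).ncard = k with hP
        obtain ⟨a0, ha0⟩ := hcne
        have h0 : P (D.inn a0 v).ncard := ⟨a0, ha0, rfl⟩
        obtain ⟨a, ha, hak⟩ := Nat.findGreatest_spec (hbd a0 ha0).2 h0
        refine ⟨a, ha, ?_⟩
        intro b hb
        rw [hak]
        exact Nat.le_findGreatest (hbd b hb).2 ⟨b, hb, rfl⟩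
      obtain ⟨a, ha, hmax⟩ := hex
      refine ⟨a, ha, hsuff a ha ?_⟩
      intro b hb
      rcases hch a ha b hb with h1 | h1
      · have h2 := inn_mono (D := D) h1.1 v
        exact (Set.eq_of_subset_of_ncard_le h2 (hmax b hb) (hbd b hb).1).symm.subset
      · exact inn_mono h1.1 v

end

/-- **Theorem.**  Let `D` be an arbitrary rooted digraph and `F` a flame of `D`.
Then `F` extends to a flame `L` of `D` such that, for every vertex `v` other than
the root: if `λ_D(r,v)` is finite then `L` is large at `v`; otherwise `L`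
contains infinitely many pairwise edge-disjoint `rv`-paths. -/
theorem result {V : Type u} {E : Type w} (D : RootedDigraph V E) (F : Set E)
    (hF : D.IsFlame F) :
    ∃ L : Set E, F ⊆ L ∧ D.IsFlame L ∧ ∀ v, v ≠ D.root →
      (FiniteConnectivity D v → D.IsLargeAt L v) ∧
      (¬ FiniteConnectivity D v → ∃ Q, D.IsPathFamily L v Q ∧ Q.Infinite) := by
  classical
  -- Zorn
  obtain ⟨⟨m, hFm, hm⟩, hmax⟩ := exists_maximal_of_chains_bounded
    (α := {L : Set E // F ⊆ L ∧ ∀ v, D.FlameAt L v}) (r := fun a b => rel D a.1 b.1) (by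
      intro c hc
      by_cases hcne : c.Nonempty
      · set c' : Set (Set E) := Subtype.val '' c with hc'
        have hc'ne : c'.Nonempty := hcne.image _
        have hch : ∀ a ∈ c', ∀ b ∈ c', rel D a b ∨ rel D b a := by
          rintro _ ⟨a, ha, rfl⟩ _ ⟨b, hb, rfl⟩
          by_cases hab : a = b
          · subst hab; exact Or.inl (rel_refl _)
          · exact hc ha hb hab
        have hfl : ∀ a ∈ c', ∀ v, D.FlameAt a v := by
          rintro _ ⟨a, ha, rfl⟩
          exact a.2.2
        refine ⟨⟨⋃₀ c', ?_, ?_⟩, ?_⟩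
        · obtain ⟨a, ha⟩ := hcne
          exact a.2.1.trans (subset_sUnion_of_mem ⟨a, ha, rfl⟩)
        · intro v
          obtain ⟨a, ha, h1⟩ := exists_stable hc'ne hch hfl v
          exact (hfl a ha v).mono (subset_sUnion_of_mem ha) h1
        · intro a ha
          refine ⟨subset_sUnion_of_mem ⟨a, ha, rfl⟩, ?_⟩
          intro v hv
          change D.inn (⋃₀ c') v = D.inn a.1 v ∨ ((D.inn a.1 v).Finite ∧ (D.inn (⋃₀ c') v).Infinite)
          obtain ⟨b, hb, h1⟩ := exists_stable hc'ne hch hfl v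
          rw [h1]
          rcases hch a.1 (mem_image_of_mem _ ha) b hb with h2 | h2
          · exact h2.2 v hv
          · left
            refine Subset.antisymm (inn_mono h2.1 v) ?_
            rw [← h1]
            have hac : a.1 ∈ c' := mem_image_of_mem _ ha
            exact inn_mono (subset_sUnion_of_mem hac) v
      · refine ⟨⟨F, subset_rfl, isFlame_iff.1 hF⟩, ?_⟩
        intro a ha
        exact absurd ⟨a, ha⟩ hcne)
    (fun h h' => rel_trans h h')
  -- infinite vertices have infinite in-degree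
  have hI : ∀ v, D.InfV v → (D.inn m v).Infinite := by
    intro v hv hfin
    obtain ⟨M, hM1, hM2, hM3, hM4⟩ := jump hm hv hfin
    have h1 := hmax ⟨M, hFm.trans hM1, hM2⟩ ⟨hM1, hM4⟩
    exact hM3 (hfin.subset (inn_mono h1.1 v))
  have hadd : ∀ e, e ∉ m → ¬ D.InfV (D.tgt e) → ¬ ∀ v, D.FlameAt (insert e m) v := by
    intro e he hinf hfl
    have h1 := hmax ⟨insert e m, hFm.trans (subset_insert e m), hfl⟩ ⟨subset_insert e m, by
      intro v hv
      left
      exact inn_insert_ne (fun h => hinf (by rw [h]; exact hv))⟩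
    exact he (h1.1 (Or.inl rfl))
  refine ⟨m, hFm, isFlame_iff.2 hm, ?_⟩
  intro v hv
  refine ⟨?_, ?_⟩
  · intro hfc
    have hninf := not_infV_of_finiteConnectivity hfc
    have hX : ∃ X : Set V, v ∈ X ∧ D.root ∉ X ∧ (D.din univ X).Finite := by
      by_contra hcon
      push Not at hcon
      exact hninf ⟨hv, hcon⟩
    obtain ⟨X0, hX01, hX02, hX03⟩ := hX
    have hinn : (D.inn m v).Finite := by
      rw [← encard_lt_top_iff]
      refine lt_of_le_of_lt (((hm v).le_din hX01 hX02).trans
        (encard_le_encard (din_mono (subset_univ _) X0))) ?_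
      rw [encard_lt_top_iff]; exact hX03
    obtain ⟨X, hWX, hrX, hXle, hXmax⟩ := exists_maxmin (D := D) m {v}
      (fun h => hv h.symm)
    rw [din_singleton] at hXle
    have hXtop : (D.din m X).encard < ⊤ :=
      lt_of_le_of_lt hXle (by rw [encard_lt_top_iff]; exact hinn)
    have hvX : v ∈ X := hWX rfl
    have hall : D.din univ X ⊆ m := by
      rintro e ⟨-, he1, he2⟩
      by_contra hem
      have h1 : (D.inn m (D.tgt e)).encard ≤ (D.din m X).encard := (hm _).le_din he2 hrX
      have h2 : (D.inn m (D.tgt e)).Finite := by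
        rw [← encard_lt_top_iff]; exact lt_of_le_of_lt h1 hXtop
      have h3 : ¬ D.InfV (D.tgt e) := fun h => hI _ h h2
      obtain ⟨Y, hY1, hY2, hY3, hY4⟩ := exists_tight hm hem h2 (hadd e hem h3)
      have h4 := uncross (hm _) he2 hY1 hrX h2 hY4
      have h5 := hXmax (X ∪ Y) subset_union_left (fun h => h.elim hrX hY3) h4
      exact he1 (h5 (Or.inr hY2))
    obtain ⟨c, hc⟩ := hm v
    exact isLargeAt_of_tight hc hvX hrX hall hinn hXle
  · intro hfc
    have hinf := infV_of_not_finiteConnectivity hv hfc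
    obtain ⟨c, hc⟩ := hm v
    obtain ⟨Q, hQ1, -, hQ3⟩ := hc.exists_family
    exact ⟨Q, hQ1, hQ3 (hI v hinf)⟩

end Pool.Agent.Results.MP_133cc4_co.LargeAtFiniteVertices
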